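import Pool.Agent.L7h54.GR.Fin
import Pool.Agent.L7h21.GR.Lin
import Pool.Agent.L7h21.GR.Sym
import Pool.Agent.L7h21.GR.Psup
import Pool.Agent.L7h22.GR.Out
import Pool.Agent.L7h22.GR.Fek
import Pool.Agent.L7h54.GR.Gen
import Pool.Agent.L7h50.GR.Cov
import Pool.Agent.L7h50.GR.Cyc
import Pool.Agent.L7h53.GR.Low
import Pool.Agent.L7h53.GR.Cnt
import Pool.Agent.L7h65.GR.Inn
import Pool.Agent.L7h65.GR.Up

/-!
# The growth rates of a linear group need not be well-ordered

The wreath product `LL` of the elementary abelian group of order eight with the integers (three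
lamps at each integer) is isomorphic to a subgroup of `GL_4(K)` for a field `K`, and it has
generating sets `gen (κ i)` with at most ten elements whose exponential growth rates `e i ≥ 4` are
strictly decreasing.  So the set of its growth rates is not well-ordered: the answer to the first
question of MP_646035_al for class 1 (linear groups of exponential growth) is negative.

The growth rate of `LL` with respect to `gen k` is given by the free energy of the Ising model on
the helical cylinder of circumference `k`; a double cover inequality for the Ising model shows that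
it becomes smaller when `k` is replaced by `k + M`, `M` large.
-/

namespace Pool.Agent.Results.MP_646035_al.LinearNotWellOrdered

open Pool.Agent.L7h54.GR

theorem result :
    (∃ (K : Type) (_ : Field K) (φ : LL →* Matrix.GeneralLinearGroup (Fin 4) K),
      Function.Injective φ) ∧
    (∃ (κ : ℕ → ℕ) (e : ℕ → ℝ), StrictMono κ ∧ StrictAnti e ∧
      ∀ i, Subgroup.closure (gen (κ i) : Set LL) = ⊤ ∧ (gen (κ i)).card ≤ 10 ∧
        IsRate (gen (κ i)) (e i) ∧ 4 ≤ e i) ∧
    ¬ (rates LL).IsWF := by
  have hKEY := s_KEY Pool.Agent.L7h65.GR.s_INN Pool.Agent.L7h22.GR.s_OUT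
  have hCOV := Pool.Agent.L7h50.GR.s_COV
  have hONE := s_ONE Pool.Agent.L7h22.GR.s_FEK Pool.Agent.L7h65.GR.s_UP
    Pool.Agent.L7h53.GR.s_CNT Pool.Agent.L7h53.GR.s_LOW Pool.Agent.L7h21.GR.s_PSUP
    Pool.Agent.L7h50.GR.s_CYC Pool.Agent.L7h21.GR.s_SYM (s_DBL hKEY hCOV) (s_STR hKEY hCOV)
  refine ⟨Pool.Agent.L7h21.GR.s_LIN, ?_, not_wf s_GEN
    Pool.Agent.L7h22.GR.s_FEK hONE⟩
  obtain ⟨κ, e, h1, h2, h3⟩ := seq_of Pool.Agent.L7h22.GR.s_FEK hONE
  exact ⟨κ, e, h1, h2, fun i => ⟨(s_GEN _).1, (s_GEN _).2,
    (h3 i).2.2, (h3 i).2.1⟩⟩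

end Pool.Agent.Results.MP_646035_al.LinearNotWellOrdered
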